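import Mathlib
import Pool.Agent.Y114.OP.FamilyComplete

/-!
# One hundred percent of the members of a family and every prime

Let `X a` (`a` in a set `U` of vectors of `N` integers) be a family of smooth projective varieties over
`ℚ`, for example the smooth hypersurfaces of a given degree, or of finite families of motives over `ℚ`,
`ρ a ℓ i` their `ℓ`-adic realizations, for ALL prime numbers `ℓ`, pure of weight `w i`, and `𝔤 a ℓ` the
Lie algebra of the motivic Galois group of the direct sum (`IsMotivic`), or of another reductive group
for which the tensors killed by `𝔤 a ℓ` are Tate tensors (the similitudes of the intersection form of a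
hypersurface, ...), of rank at most `r`.

Suppose that there are infinitely many prime numbers `p` for which at least a fixed positive
proportion `δ` of the vectors modulo `p` is in a set `A p` such that for `a` modulo `p` in `A p` the
variety `X a` has good reduction at `p` and that there are `r` multiplicatively independent numbers
among the eigenvalues of Frobenius.  For families with large geometric monodromy (for `r` the rank of
the monodromy group plus one, the multiplier) this is known by the equidistribution theorem of Deligne
and the sieves of Chavdarov, Katz and Kowalski, with every `δ < 1` and all large `p`.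

Theorem.  Then for 100 PERCENT of the vectors `a` (ordered by height) `X a` is in `U` and for EVERY
prime number `ℓ`

* the representation `V = ⊕ ρ a ℓ i` is semisimple (for all subgroups of finite index),
* the Lie algebra of the endomorphisms of `V` which kill all Tate tensors is a reductive subalgebra of
  `𝔤 a ℓ` of the same rank `r`,
* if every endomorphism of `V` which commutes with a subgroup of finite index of the Galois group
  commutes with `𝔤 a ℓ`, then the Tate tensors of ALL degrees on `V` are the tensors killed by
  `𝔤 a ℓ`.

So for 100 percent of the members of the family and every `ℓ` the Tate conjecture (over all finite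
extensions of `ℚ`) for the homomorphisms between the motives of the given finite family implies it for
all motives `M`, `M'` in the tensor category generated by them, if the tensors killed by `𝔤 a ℓ` are
algebraic (as for hypersurfaces, by invariant theory, if they are the invariants of the similitudes
of the intersection form), and the Galois representations on all these motives are semisimple.

The proof.  (1) By a sieve (`S_SIEVE`) 100 percent of the vectors are in `A p` modulo `p` for at least
four of the primes `p` (this needs only the Chinese remainder theorem and that the sum of `δ` over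
the primes diverges).  (2) Three of the four primes are different from `ℓ`.  By the theorem on
Frobenius tori of maximal rank at three primes (`semi_gen`, from the library `Pool.Agent.Y114.RM`; it
uses an `ℓ`-adic six exponentials theorem for the determinant of the adjoint representation) `V` is
semisimple and the Lie algebra `L` of the Tate tensors contains a Cartan subalgebra of `𝔤`.  (3) A
reductive subalgebra of maximal rank with the same centralizer in `End V` is everything (`S_LAT`): a
closed symmetric subset of a root system consists of all roots in the lattice generated by it.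
-/

set_option autoImplicit false

namespace Pool.Agent.Results.MP_3703a7_ag.HundredPercentEveryPrime

open NumberField IsDedekindDomain Polynomial Module Pool.Agent.Y114.TF Pool.Agent.Y114.GF
  Pool.Agent.Y114.MU Pool.Agent.Y114.RM Pool.Agent.Y114.OP Pool.Agent.H204R3.GP

theorem result {ι : Type} [Fintype ι] [DecidableEq ι] {n : ι → ℕ} {N : ℕ}
    -- the `ℓ`-adic realizations of the members, of weights `w i`, for all prime numbers `ℓ`
    (ρ : (Fin N → ℤ) → ∀ (ℓ : ℕ) [Fact ℓ.Prime], Reps Gal(AlgebraicClosure ℚ/ℚ) n ℓ)
    (w : ι → ℤ) (U : Set (Fin N → ℤ))
    (hρ : ∀ a ∈ U, ∀ (ℓ : ℕ) [Fact ℓ.Prime], Conts (ρ a ℓ))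
    -- the Lie algebras of the motivic Galois groups, of rank at most `r`
    (𝔤 : (Fin N → ℤ) → ∀ (ℓ : ℕ) [Fact ℓ.Prime], EndSpace n ℓ)
    (h𝔤 : ∀ a ∈ U, ∀ (ℓ : ℕ) [Fact ℓ.Prime], Motivic (ρ a ℓ) (𝔤 a ℓ)) (r : ℕ)
    (hrank : ∀ a ∈ U, ∀ (ℓ : ℕ) [Fact ℓ.Prime], RankLE (𝔤 a ℓ) r)
    -- infinitely many primes, and a positive proportion of the vectors modulo these primes
    (T : Set ℕ) (hT : T.Infinite) (hTp : ∀ p ∈ T, p.Prime) (A : ∀ p : ℕ, Set (Fin N → ZMod p))
    (δ : ℝ) (hδ : 0 < δ) (hA : ∀ p ∈ T, δ * (p : ℝ) ^ N ≤ ((A p).ncard : ℝ))
    -- good reduction with `r` independent Frobenius eigenvalues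
    (hgood : ∀ p ∈ T, ∀ a : Fin N → ℤ, (fun j => (a j : ZMod p)) ∈ A p →
      a ∈ U ∧ FullRankAt (ρ a) w r p) :
    HundredPercent fun a => a ∈ U ∧ ∀ (ℓ : ℕ) [Fact ℓ.Prime], Semisimple (ρ a ℓ) ∧
      (∃ 𝔥 : EndSpace n ℓ, KillsTateTensors (ρ a ℓ) 𝔥 ∧ ReductiveOfRank (𝔤 a ℓ) 𝔥 r) ∧
      (EndTate (ρ a ℓ) (𝔤 a ℓ) → TateTensorsOf (ρ a ℓ) (𝔤 a ℓ)) :=
  Pool.Agent.Y114.OP.family_complete w r ρ 𝔤 U hρ h𝔤 hrank T hT hTp A δ hδ hA hgood

end Pool.Agent.Results.MP_3703a7_ag.HundredPercentEveryPrime
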