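import Pool.Agent.Y142.SV.Fin
import Pool.Agent.Y405.ZO.Frob
import Pool.Agent.Y484.ZI.IntRes
import Pool.Agent.Y726.ZI.Cheb
import Pool.Agent.Y681.ZI.Dens
import Pool.Agent.Y537.ZI.Multi
import Pool.Agent.Y614.ZD.Badd
import Pool.Agent.Y100.ZD.Sub
import Pool.Agent.Y255.SS.LF
import Pool.Agent.Y297.SS.CF
import Pool.Agent.Y708.SS.Loc
import Pool.Agent.Y936.SS.Logr
import Pool.Agent.Y518.SS.Krs
import Pool.Agent.Y737.SS.Chara
import Pool.Agent.Y932.SI.Subf
import Pool.Agent.Y421.SI.EF
import Pool.Agent.Y641.SI.Trd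
import Pool.Agent.Y949.SI.Ende
import Pool.Agent.Y708.ZO.Tan
import Pool.Agent.Y710.ZS.Tans
import Pool.Agent.Y246.SU.DCT
import Pool.Agent.Y154.SU.Coef
import Pool.Agent.Y794.SV.Rootv
import Pool.Agent.Y641.SV.Liev
import Pool.Agent.Y710.SV.Fftv
import Pool.Agent.Y79.SV.Fftdv
import Pool.Agent.Y314.SV.Perfv
import Pool.Agent.Y259.SV.Invv

/-!
# The Tate conjecture for motives with real multiplication at 100 percent of the primes `ℓ`

Let `X` be a smooth projective variety over a number field or a finitely generated field `k` of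
characteristic zero and let `V_ℓ`, for all primes `ℓ`, be a direct factor of the `ℓ`-adic cohomology of `X`
(of any degree) which is cut out by algebraic correspondences and on which a number field `E`, Galois over
`ℚ`, acts by correspondences which are selfadjoint for the form `J_ℓ` on `V_ℓ` given by a polarization
(then `E` is totally real; `E = ℚ` is allowed). `V_ℓ` is free of rank `n` over `E ⊗ ℚ_ℓ`, and `J_ℓ` is
alternating (odd degree) or symmetric (even degree). The representation comes from a profinite group `Γ`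
(the Galois group of `k` or the fundamental group of a model); if `k` is not a number field, a closed point of
the generic fibre of the model gives a homomorphism `s` from the Galois group of a number field `K` to `Γ`. At
the places `v` of good reduction the geometric Frobenius element has a characteristic polynomial `P_v`
with rational coefficients and a multiplier `q_v`, independent of `ℓ`.

The image of the Galois group is contained in the group of the similitudes of `J_ℓ` which commute with `E`,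
a group of symplectic or orthogonal similitudes over `E ⊗ ℚ_ℓ`. In the generic case one expects for every
`ℓ` that it contains an open subgroup of the group of isometries; this follows from the Mumford-Tate
conjecture. In the symplectic case it implies the Tate conjecture for ALL classes of all degrees on all
powers of `X` which come from `V_ℓ`, in the orthogonal case for the classes of degree less than `n`.

**Theorem.** Suppose that
(1) for some place `w_0` of good reduction the roots of `P_{w_0}` are simple and `x / y = z / u` for roots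
`x ≠ y`, `z`, `u` only in the trivial cases `(z, u) = (x, y)` and `(z, u) = (q / y, q / x)`, `q` the multiplier;
(2) (as in the theorem on endomorphisms of motives at 100 percent of the primes) `u_0, ..., u_m` are places of
good reduction such that the roots of `P_{u_i}` are simple and no quotient of two different roots is a root
of unity, `F` is the intersection of the splitting fields of these polynomials, and for every automorphism
`g` of the algebraic closure of `ℚ`, of order `f` on `E`,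
* for every `d < n [E : ℚ]`, `d > 0`, which is not divisible by `n f`, there are a place `v` of this type and
an automorphism `w` which agrees with `g` on `F` such that no set of `d` roots of `P_v` is stable under `w`;
* there are a place `v` of this type and an automorphism `w` which agrees with `g` on `F` such that `w ^ f`
has a fixed point in every nonempty set of roots of `P_v` which is stable under `w` and whose number
of elements is divisible by `n f`.
Then for all prime numbers `ℓ` outside of a set of natural density zero: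
(a) the Lie algebra of the image of `Γ` contains all `X` which commute with `E` and are skew with respect
to `J_ℓ` (so the image contains an open subgroup of the group of the isometries which commute with `E`);
(b) every multilinear form in `k` variables on `V_ℓ` (`k` arbitrary if `J_ℓ` is alternating, `k < n` if
`J_ℓ` is symmetric) which is invariant under the isometries in an open subgroup of `Γ` is a linear
combination of products of forms `J_ℓ(a x, y)` with `a ∈ E`.

By (b) all Tate classes on the tensor powers of `V_ℓ` and of its dual (in the symplectic case in all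
degrees), over all finite extensions of `k`, are combinations of products of classes of correspondences
(the graphs of the elements of `E` and the polarization), so they are algebraic. Neither semisimplicity
nor anything about the representations at single primes is assumed. All hypotheses are conditions on
finitely many Frobenius polynomials; in general one expects that the Galois group of `P_v` is the Weyl
group of the group of isometries over `E`, extended by the Galois group of `F`, and then such places exist in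
the symplectic case, and in the orthogonal case for even `n ≥ 6`.

Idea of the proof. By the theorem on endomorphisms the commutant of every open subgroup of `Γ` is
`E ⊗ ℚ_ℓ` and the representation is semisimple at 100 percent of the `ℓ`, so by the double commutant
theorem the Lie algebra of the image generates the whole commutant of `E`. The Frobenius element
at `w_0` splits the Lie algebra (over the algebraic closure) into root spaces of dimension one; the pairs
`(x, y)` of eigenvalues which occur form a relation which is stable under `(x, y) ↦ (q / y, q / x)`,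
connects all eigenvalues in an eigenspace of `E` and is transitive up to the exceptions of the root
system, so it contains all roots. For (b): the Lie algebra is perfect, so the form is invariant under
it, and one uses the first fundamental theorem for products of symplectic or orthogonal groups, with
descent from the algebraic closure.
-/

set_option autoImplicit false

namespace Pool.Agent.Results.MP_3703a7_ag.RealMultiplicationDensityOne

open Matrix Polynomial Filter Topology NumberField IsDedekindDomain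

/-- the absolute Galois group of `K`, with its profinite (Krull) topology -/
abbrev AbsoluteGaloisGroup (K : Type) [Field K] : Type := Gal(AlgebraicClosure K/K)

/-- `σ` is an (arithmetic) Frobenius element at the prime `v` of the number field `K`: for some prime
`Q` of the algebraic closure above `v` it acts on the residue field as `x ↦ x ^ N(v)` -/
def IsFrobenius {K : Type} [Field K] [NumberField K] (v : HeightOneSpectrum (𝓞 K))
    (σ : AbsoluteGaloisGroup K) : Prop :=
  ∃ Q : Ideal (𝓞 (AlgebraicClosure K)), Q.IsMaximal ∧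
    Q.comap (algebraMap (𝓞 K) (𝓞 (AlgebraicClosure K))) = v.asIdeal ∧
    ∀ x : 𝓞 (AlgebraicClosure K), σ • x - x ^ Ideal.absNorm v.asIdeal ∈ Q

/-- `ρ` is a continuous representation of `Γ` on `ℚ_ℓ ^ N` by similitudes of the nondegenerate symmetric
or alternating form with the matrix `J`; for all `v ∉ S` which are prime to `ℓ` the characteristic
polynomial of (the image under `s` of) the geometric Frobenius elements `σ⁻¹` (`σ` arithmetic) at `v`
is `P v`, and their multiplier is `q v` -/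
def IsPolarizedSystem (K : Type) [Field K] [NumberField K] {Γ : Type} [Group Γ] [TopologicalSpace Γ]
    (s : AbsoluteGaloisGroup K →* Γ) (N ℓ : ℕ) [Fact ℓ.Prime]
    (ρ : Γ →* Matrix (Fin N) (Fin N) ℚ_[ℓ]) (J : Matrix (Fin N) (Fin N) ℚ_[ℓ])
    (S : Set (HeightOneSpectrum (𝓞 K))) (P : HeightOneSpectrum (𝓞 K) → ℚ[X])
    (q : HeightOneSpectrum (𝓞 K) → ℚ) : Prop :=
  Continuous ρ ∧ (Jᵀ = J ∨ Jᵀ = -J) ∧ J.det ≠ 0 ∧
    (∀ γ, ∃ c : ℚ_[ℓ], (ρ γ)ᵀ * J * ρ γ = c • J) ∧
    ∀ v ∉ S, (ℓ : 𝓞 K) ∉ v.asIdeal → ∀ σ : AbsoluteGaloisGroup K, IsFrobenius v σ →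
      (ρ (s σ⁻¹)).charpoly = (P v).map (algebraMap ℚ ℚ_[ℓ]) ∧
        (ρ (s σ⁻¹))ᵀ * J * ρ (s σ⁻¹) = (q v : ℚ_[ℓ]) • J

/-- the roots of `P v` are simple, and different roots have different `n`-th powers for all `n > 0` -/
def IsRegularPlace {K : Type} [Field K] [NumberField K]
    (S : Set (HeightOneSpectrum (𝓞 K))) (P : HeightOneSpectrum (𝓞 K) → ℚ[X])
    (v : HeightOneSpectrum (𝓞 K)) : Prop :=
  v ∉ S ∧ (P v).Separable ∧ ∀ n : ℕ, 0 < n → ∀ x y : ℂ,
    aeval x (P v) = 0 → aeval y (P v) = 0 → x ^ n = y ^ n → x = y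

/-- the roots of `P v` are simple, and the quotients `x / y` of different roots are different, except
for `x / y = (q / y) / (q / x)`, `q` the multiplier -/
def IsGenericPlace {K : Type} [Field K] [NumberField K]
    (S : Set (HeightOneSpectrum (𝓞 K))) (P : HeightOneSpectrum (𝓞 K) → ℚ[X])
    (q : HeightOneSpectrum (𝓞 K) → ℚ) (v : HeightOneSpectrum (𝓞 K)) : Prop :=
  v ∉ S ∧ (P v).Separable ∧ ∀ x y z u : ℂ, aeval x (P v) = 0 → aeval y (P v) = 0 →
    aeval z (P v) = 0 → aeval u (P v) = 0 → x ≠ y → x * u = z * y →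
    (z = x ∧ u = y) ∨ (z * y = (q v : ℂ) ∧ u * x = (q v : ℂ))

/-- the splitting field of `Q` in the algebraic closure of `ℚ` -/
noncomputable def splittingField (Q : ℚ[X]) : Set (AlgebraicClosure ℚ) :=
  (IntermediateField.adjoin ℚ {x : AlgebraicClosure ℚ | aeval x Q = 0} :
    IntermediateField ℚ (AlgebraicClosure ℚ))

/-- the order of the restriction of `g` to the (finite, normal) field `E` -/
noncomputable def orderOn (E : IntermediateField ℚ (AlgebraicClosure ℚ))
    (g : AbsoluteGaloisGroup ℚ) : ℕ :=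
  sInf {k : ℕ | 0 < k ∧ ∀ a ∈ E, (g ^ k) a = a}

/-- `T` is a set of roots of `Q` which is stable under `w` -/
def IsStableSet (w : AbsoluteGaloisGroup ℚ) (Q : ℚ[X]) (T : Set (AlgebraicClosure ℚ)) : Prop :=
  (∀ x ∈ T, aeval x Q = 0) ∧ ∀ x ∈ T, w x ∈ T

/-- the Lie algebra of the image contains the Lie algebra of the isometries over `E`: every matrix `X`
which commutes with `E` and is skew with respect to `J` is a limit of `ℓ ^ (-k) (ρ (σ_k) - 1)` for a
sequence of elements `σ_k` of `Γ` -/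
def ContainsIsometries {Γ : Type} [Group Γ] {N : ℕ} (ℓ : ℕ) [Fact ℓ.Prime]
    {E : IntermediateField ℚ (AlgebraicClosure ℚ)} (ρ : Γ →* Matrix (Fin N) (Fin N) ℚ_[ℓ])
    (ε : E →+* Matrix (Fin N) (Fin N) ℚ_[ℓ]) (J : Matrix (Fin N) (Fin N) ℚ_[ℓ]) : Prop :=
  ∀ X : Matrix (Fin N) (Fin N) ℚ_[ℓ], (∀ a, X * ε a = ε a * X) → Xᵀ * J + J * X = 0 →
    ∃ σ : ℕ → Γ, Tendsto (fun k : ℕ => ((ℓ : ℚ_[ℓ]) ^ k)⁻¹ • (ρ (σ k) - 1)) atTop (𝓝 X)

/-- every multilinear form in `k` variables on `ℚ_ℓ ^ N` (`k` arbitrary if `J` is alternating, `k < n` if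
`J` is symmetric) which is invariant under the isometries `ρ σ`, `σ` in an open subgroup of `Γ`, is a
linear combination of the products `∏ J(a_j v_j, v_{π j})` (one factor for every pair `{j, π j}`), `π` a
perfect matching of the variables and `a_j ∈ E` -/
def TateTensorsFrom {Γ : Type} [Group Γ] [TopologicalSpace Γ] {N : ℕ} (n ℓ : ℕ) [Fact ℓ.Prime]
    {E : IntermediateField ℚ (AlgebraicClosure ℚ)} (ρ : Γ →* Matrix (Fin N) (Fin N) ℚ_[ℓ])
    (ε : E →+* Matrix (Fin N) (Fin N) ℚ_[ℓ]) (J : Matrix (Fin N) (Fin N) ℚ_[ℓ]) : Prop :=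
  ∀ k : ℕ, (k < n ∨ Jᵀ = -J) →
    ∀ (φ : MultilinearMap ℚ_[ℓ] (fun _ : Fin k => Fin N → ℚ_[ℓ]) ℚ_[ℓ]) (U : Subgroup Γ),
    IsOpen (U : Set Γ) →
    (∀ σ ∈ U, (ρ σ)ᵀ * J * ρ σ = J → ∀ v, φ (fun j => ρ σ *ᵥ v j) = φ v) →
    (fun v => φ v) ∈ Submodule.span ℚ_[ℓ] {f : (Fin k → Fin N → ℚ_[ℓ]) → ℚ_[ℓ] |
      ∃ (π : Equiv.Perm (Fin k)) (a : Fin k → E), (∀ j, π (π j) = j) ∧ (∀ j, π j ≠ j) ∧
        ∀ v, f v = ∏ j with j < π j, ((ε (a j) *ᵥ v j) ⬝ᵥ J *ᵥ v (π j))}

/-- the set `A` of prime numbers has natural density zero -/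
def HasDensityZero (A : Set ℕ) : Prop :=
  Tendsto (fun n : ℕ => (Nat.card {ℓ : ℕ // ℓ ≤ n ∧ ℓ ∈ A} : ℝ) / (Nat.primeCounting n : ℝ))
    atTop (𝓝 0)

/-- **Motives with real multiplication at 100 percent of the primes `ℓ`.** -/
theorem result (K : Type) [Field K] [NumberField K] (Γ : Type) [Group Γ] [TopologicalSpace Γ]
    [IsTopologicalGroup Γ] [CompactSpace Γ] (s : AbsoluteGaloisGroup K →* Γ) (hs : Continuous s)
    (N : ℕ) (S : Set (HeightOneSpectrum (𝓞 K))) (hS : S.Finite)
    (P : HeightOneSpectrum (𝓞 K) → ℚ[X]) (q : HeightOneSpectrum (𝓞 K) → ℚ)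
    (ρ : ∀ (ℓ : ℕ) [Fact ℓ.Prime], Γ →* Matrix (Fin N) (Fin N) ℚ_[ℓ])
    (J : ∀ (ℓ : ℕ) [Fact ℓ.Prime], Matrix (Fin N) (Fin N) ℚ_[ℓ])
    (hρ : ∀ (ℓ : ℕ) [Fact ℓ.Prime], IsPolarizedSystem K s N ℓ (ρ ℓ) (J ℓ) S P q)
    -- the coefficients
    (E : IntermediateField ℚ (AlgebraicClosure ℚ)) [FiniteDimensional ℚ E] [Normal ℚ E]
    (n : ℕ) (hn : 0 < n) (hN : N = n * Module.finrank ℚ E)
    (ε : ∀ (ℓ : ℕ) [Fact ℓ.Prime], E →+* Matrix (Fin N) (Fin N) ℚ_[ℓ])
    (hε : ∀ (ℓ : ℕ) [Fact ℓ.Prime] (a : E) (γ : Γ), ε ℓ a * ρ ℓ γ = ρ ℓ γ * ε ℓ a)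
    (htr : ∀ (ℓ : ℕ) [Fact ℓ.Prime] (a : E),
      (ε ℓ a).trace = (n : ℚ_[ℓ]) * ((Algebra.trace ℚ E a : ℚ) : ℚ_[ℓ]))
    (hεJ : ∀ (ℓ : ℕ) [Fact ℓ.Prime] (a : E), (ε ℓ a)ᵀ * J ℓ = J ℓ * ε ℓ a)
    -- the places
    (w₀ : HeightOneSpectrum (𝓞 K)) (hw₀ : IsGenericPlace S P q w₀)
    (m : ℕ) (u : Fin (m + 1) → HeightOneSpectrum (𝓞 K)) (hu : ∀ i, IsRegularPlace S P (u i))
    (h1 : ∀ (g : AbsoluteGaloisGroup ℚ) (d : ℕ), 0 < d → d < N → ¬ n * orderOn E g ∣ d →
      ∃ (v : HeightOneSpectrum (𝓞 K)) (w : AbsoluteGaloisGroup ℚ), IsRegularPlace S P v ∧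
        (∀ x, (∀ i, x ∈ splittingField (P (u i))) → w x = g x) ∧
        ∀ T, IsStableSet w (P v) T → T.ncard ≠ d)
    (h2 : ∀ g : AbsoluteGaloisGroup ℚ,
      ∃ (v : HeightOneSpectrum (𝓞 K)) (w : AbsoluteGaloisGroup ℚ), IsRegularPlace S P v ∧
        (∀ x, (∀ i, x ∈ splittingField (P (u i))) → w x = g x) ∧
        ∀ T, IsStableSet w (P v) T → T.Nonempty → n * orderOn E w ∣ T.ncard →
          ∃ x ∈ T, (w ^ orderOn E w) x = x) :
    HasDensityZero {ℓ | ∃ _ : Fact ℓ.Prime, ¬ (ContainsIsometries ℓ (ρ ℓ) (ε ℓ) (J ℓ) ∧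
      TateTensorsFrom n ℓ (ρ ℓ) (ε ℓ) (J ℓ))} := by
  -- the tasks
  have hFROB : Y142.ZO.S_FROB := Y405.ZO.t
  have hINT : Y142.ZI.S_INT := Y484.ZI.t1
  have hCHEB : Y142.ZI.S_CHEB := Y726.ZI.t1
  have hDENS2 : Y142.ZI.S_DENS2 := Y681.ZI.t hCHEB
  have hMULTI : Y142.ZI.S_MULTI := Y537.ZI.t
  have hLF : Y142.SS.S_LF := Y255.SS.t
  have hCF : Y142.SS.S_CF := Y297.SS.t hLF
  have hLOC : Y142.SS.S_LOC := Y708.SS.Loc.t hCF
  have hLOGR : Y142.SS.S_LOGR := Y936.SS.t
  have hKRS : Y142.SS.S_KRS := Y518.SS.t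
  have hCHARA : Y142.SS.S_CHARA := Y737.SS.Chara.t
  have hBADD : Y142.ZD.S_BADD := Y614.ZD.t
  have hSUB : Y142.ZD.S_SUB := Y100.ZD.t
  have hSUBF : Y142.SI.S_SUBF := Y932.SI.Subf.t hLF hCF
  have hEF : Y142.SI.S_EF := Y421.SI.EF.t hLOC
  have hTRD : Y142.SI.S_TRD := Y641.SI.t
  have hENDE : Y142.SI.S_ENDE := Y949.SI.t
  have hTAN : Y142.ZO.S_TAN := Y708.ZO.t
  have hTANS : Y142.ZS.S_TANS := Y710.ZS.t1
  have hDCT : Y142.SU.S_DCT := Y246.SU.DCT.t
  have hROOTV : Y142.SV.S_ROOTV := Y794.SV.t_rootv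
  have hLIEV : Y142.SV.S_LIEV := Y641.SV.t hROOTV
  have hFFTV : Y142.SV.S_FFTV := Y710.SV.t
  have hFFTDV : Y142.SV.S_FFTDV := Y79.SV.t hFFTV
  have hPERFV : Y142.SV.S_PERFV := Y314.SV.t_PERFV
  have hINVV : Y142.SV.S_INVV := Y259.SV.t hPERFV
  have hCOEF : Y142.SU.S_COEF := Y154.SU.t_COEF
  have hNpos : 0 < N := by
    rw [hN]
    exact Nat.mul_pos hn Module.finrank_pos
  have hgs : ∀ (ℓ : ℕ) [Fact ℓ.Prime], Y142.SI.GenSys K s N ℓ (ρ ℓ) S P := fun ℓ _ =>
    ⟨(hρ ℓ).1, fun v hv hvℓ σ hσ => ((hρ ℓ).2.2.2.2 v hv hvℓ σ hσ).1⟩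
  have hfs : ∀ (ℓ : ℕ) [Fact ℓ.Prime], Y142.SU.FormSys K s N ℓ (ρ ℓ) (J ℓ) S q := fun ℓ _ =>
    ⟨(hρ ℓ).2.1, (hρ ℓ).2.2.1, (hρ ℓ).2.2.2.1,
      fun v hv hvℓ σ hσ => ((hρ ℓ).2.2.2.2 v hv hvℓ σ hσ).2⟩
  have hsys' : ∀ (ℓ : ℕ) [Fact ℓ.Prime], Y142.SS.Sys K N ℓ ((ρ ℓ).comp s) S P := fun ℓ _ =>
    ⟨(hgs ℓ).1.comp hs, fun v hv hvℓ σ hσ => (hgs ℓ).2 v hv hvℓ σ hσ⟩
  have hnice : ∀ v, IsRegularPlace S P v → Y142.ZS.NiceP S P v := fun v hv =>
    Y142.SS.nice_of_complexA (fun ℓ _ => (ρ ℓ).comp s) hsys' hv.1 hv.2.1 hv.2.2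
  have hgen : Y142.ZS.GenP S P q w₀ :=
    Y142.SU.gen_of_complexU hw₀.1 (Y142.SS.monic_of_sysA (fun ℓ _ => (ρ ℓ).comp s) hsys' hw₀.1).1
      (Y142.SU.q_ne_zeroU hNpos s ρ J hfs hw₀.1) hw₀.2.1 hw₀.2.2
  have hLf : ∀ (i : Fin (m + 1)) (x : AlgebraicClosure ℚ),
      x ∈ Y142.ZI.Lf (P (u i)) → x ∈ splittingField (P (u i)) := by
    intro i x hx
    have h2 : (P (u i)).rootSet (AlgebraicClosure ℚ) =
        {x : AlgebraicClosure ℚ | aeval x (P (u i)) = 0} := by
      ext y
      exact mem_rootSet_of_ne (hu i).2.1.ne_zero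
    unfold Y142.ZI.Lf at hx
    rw [h2] at hx
    exact hx
  have hA : ∀ g w : AbsoluteGaloisGroup ℚ,
      (∀ x, (∀ i, x ∈ splittingField (P (u i))) → w x = g x) →
      w⁻¹ * g ∈ Subgroup.closure (⋃ i, Y142.SS.Fix (P (u i))) := by
    intro g w hw
    refine Y142.SS.field_mem _ (fun i => (hu i).2.1.ne_zero) fun x hx => ?_
    rw [AlgEquiv.mul_apply, ← hw x fun i => hLf i x (hx i), ← AlgEquiv.mul_apply, inv_mul_cancel,
      AlgEquiv.one_apply]
  refine Y142.ZI.DensityZero.mono (Y142.SV.densitySV hTAN hTANS hDCT hLIEV hFFTDV hINVV hCOEF hLOC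
    hLOGR hKRS hCHARA hMULTI hFROB hINT hDENS2 hBADD hSUB hSUBF hEF hTRD hENDE hS s hs ρ hgs E
    inferInstance inferInstance n hn hN ε hε htr J hfs hεJ hgen u
    (fun i => hnice _ (hu i)) ?_ ?_) ?_
  · intro g d hd hdN hnd
    obtain ⟨v, w, hv, hw, hT⟩ := h1 g d hd hdN hnd
    exact ⟨v, hnice v hv, w, fun T hT1 hT2 => hT T ⟨hT1, hT2⟩, hA g w hw⟩
  · intro g
    obtain ⟨v, w, hv, hw, hT⟩ := h2 g
    exact ⟨v, hnice v hv, w, fun T hT1 hne hT2 hd => hT T ⟨hT1, hT2⟩ hne hd, hA g w hw⟩
  · rintro ℓ ⟨hp, hno⟩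
    refine ⟨hp, fun hgood => hno ?_⟩
    have hspan := (hCOEF ℓ N n E inferInstance hn (ε ℓ) (htr ℓ)).2.2.1
    refine ⟨fun X hX1 hX2 => hgood.1 X (Y142.SV.lieV_of (ε ℓ) hspan hX1 hX2), ?_⟩
    intro k hk φ U hU hφ
    exact Y142.SU.fromHerm_le (ε ℓ) hspan k (hgood.2 k φ U hk hU hφ)

end Pool.Agent.Results.MP_3703a7_ag.RealMultiplicationDensityOne
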