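import Pool.Agent.Y142.ZS.Fin
import Pool.Agent.Y708.ZO.Tan
import Pool.Agent.Y497.ZO.LogPow
import Pool.Agent.Y405.ZO.Frob
import Pool.Agent.Y64.ZI.Clu
import Pool.Agent.Y35.ZI.Cyc
import Pool.Agent.Y333.ZI.Unr
import Pool.Agent.Y547.ZI.Nice
import Pool.Agent.Y484.ZI.IntRes
import Pool.Agent.Y971.ZI.Irr
import Pool.Agent.Y726.ZI.Cheb
import Pool.Agent.Y681.ZI.Dens
import Pool.Agent.Y537.ZI.Multi
import Pool.Agent.Y515.ZI.Gen
import Pool.Agent.Y547.ZI.Clq
import Pool.Agent.Y210.ZI.TypC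
import Pool.Agent.Y67.ZI.TypS
import Pool.Agent.Y67.ZI.TypT
import Pool.Agent.Y405.ZI.TypU
import Pool.Agent.Y710.ZS.Tans
import Pool.Agent.Y664.ZS.Opens
import Pool.Agent.Y153.ZS.BadIrr
import Pool.Agent.Y929.ZS.Root
import Pool.Agent.Y487.ZS.Sform
import Pool.Agent.Y779.ZS.Chars
import Pool.Agent.Y614.ZS.Twist
import Pool.Agent.Y914.ZS.TypG
import Pool.Agent.Y884.ZS.Typcu
import Pool.Agent.Y100.ZS.Tenss
import Pool.Agent.Y674.ZS.SPL

/-!
# The Tate conjecture for symplectic motives: from one prime to 100 percent of the primes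

Let `M` be a pure motive of odd weight `w` and rank `N` over a number field `K` with a polarization,
for example a direct summand of the cohomology of odd degree of a smooth projective variety (the
middle cohomology of a variety of odd dimension; abelian varieties are not needed here, for them
the conjectures are theorems of Faltings). For all prime numbers `ℓ` let `V_ℓ` be its realization, with its
alternating form `J_ℓ`; the Galois group acts by symplectic similitudes, and at the places `v` of good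
reduction prime to `ℓ` the characteristic polynomial `P_v` of the geometric Frobenius element is a
polynomial over `ℚ` which does not depend on `ℓ` and its multiplier is `q_v = N(v) ^ w`.

In the generic case the Mumford-Tate group is the group of symplectic similitudes, and one expects for every
prime `ℓ` that the image of the Galois group is open in the group of similitudes of `V_ℓ` (the
Mumford-Tate conjecture). Then all Tate classes on all tensor products of copies of `V_ℓ` and its dual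
are combinations of products of the class of the polarization, and these representations are
semisimple, so that the maps `Hom(M', M'') ⊗ ℚ_ℓ → Hom_G(M'_ℓ, M''_ℓ)` are surjective for all motives
in the tensor category generated by `M`. In contrast to the case of abelian varieties it is
not known that this is independent of `ℓ`: at other primes `V_ℓ` could be reducible or not semisimple.

Theorem. (A) If the image of the Galois group contains a neighbourhood of `1` in the symplectic group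
of `V_ℓ` for ONE odd prime `ℓ`, then for all `ℓ` outside a set of natural density zero. Then
also all multilinear forms on `V_ℓ`, in any number of variables, which are invariant under the
isometries in an open subgroup of the Galois group are combinations of products of the given form.

(B) Suppose that `v` and `w` are two places of good reduction such that
* the roots of `P_v` are simple with different powers;
* the roots of `P_w` are simple, and `x / y = z / u` for roots `x ≠ y`, `z`, `u` of `P_w` only in the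
trivial cases `(z, u) = (x, y)` and `(z, u) = (q_w / y, q_w / x)`;
* some automorphism of the algebraic closure of `ℚ` permutes the roots of `P_v` transitively (that is, as
a cycle of length `N`) and fixes the roots of `P_w`.
Then the conclusion of (A) holds.

So these conjectures hold at 100 percent of the primes if they hold at one odd prime, or if the two
Frobenius polynomials have the stated properties. (If the image is open in the group of similitudes at one odd prime,
then two such places exist, by the proof of (A).) Neither semisimplicity nor anything about the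
representations at the other primes is assumed.

Idea of the proof. If the Frobenius element at `ℓ` acts as a full cycle on the roots of `P_v`, then `P_v` is
irreducible over `ℚ_ℓ` and `V_ℓ` is strongly irreducible. If it fixes the roots of `P_w` then the
Lie algebra `𝔤` of the image is the sum of its intersections with the root spaces of a split Cartan
subalgebra; the roots `x ↦ y` which occur form a relation on the set of the roots of `P_w` which is
transitive enough to contain everything if `V_ℓ` is irreducible for `𝔤`, so that `𝔤` contains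
the symplectic Lie algebra. So (B) implies openness at infinitely many `ℓ`. At a prime with open image we can
prescribe the local behaviour of `P_v`; approximation at five such primes gives
places `v` such that the Galois group of `P_v` over an arbitrary given number field `M` is the full
group of signed permutations. Then the Frobenius element at `ℓ` is a full cycle, or the identity, with a
probability which is bounded from below independently of what happens in `M`, and by Chebotarev's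
theorem, applied to more and more such places, the exceptional set has density zero. For (A) one realises at
the given prime an unramified full cycle and a split generic polynomial.
-/

set_option autoImplicit false

namespace Pool.Agent.Results.MP_3703a7_ag.SymplecticZeroOne

open Matrix Polynomial Filter Topology NumberField IsDedekindDomain

/-- the absolute Galois group of `K`, with its profinite (Krull) topology -/
abbrev AbsoluteGaloisGroup (K : Type) [Field K] : Type := Gal(AlgebraicClosure K/K)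

/-- `σ` is an (arithmetic) Frobenius element at the prime `v` of the number field `K`: for some prime
`Q` of the algebraic closure above `v` it acts on the residue field as `x ↦ x ^ N(v)` -/
def IsFrobenius {K : Type} [Field K] [NumberField K] (v : HeightOneSpectrum (𝓞 K))
    (σ : AbsoluteGaloisGroup K) : Prop :=
  ∃ Q : Ideal (𝓞 (AlgebraicClosure K)), Q.IsMaximal ∧
    Q.comap (algebraMap (𝓞 K) (𝓞 (AlgebraicClosure K))) = v.asIdeal ∧
    ∀ x : 𝓞 (AlgebraicClosure K), σ • x - x ^ Ideal.absNorm v.asIdeal ∈ Q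

/-- `ρ` is a continuous representation of `G_K` on `ℚ_ℓ ^ N` by similitudes of the nondegenerate
alternating form with the matrix `J`, and for all `v ∉ S` which are prime to `ℓ` the characteristic
polynomial of the geometric Frobenius elements `σ⁻¹` (`σ` arithmetic) at `v` is `P v` and their
multiplier is `q v` -/
def IsSymplecticSystem (K : Type) [Field K] [NumberField K] (N : ℕ)
    (S : Set (HeightOneSpectrum (𝓞 K))) (P : HeightOneSpectrum (𝓞 K) → ℚ[X])
    (q : HeightOneSpectrum (𝓞 K) → ℚ) (ℓ : ℕ)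
    [Fact ℓ.Prime] (ρ : AbsoluteGaloisGroup K →* Matrix (Fin N) (Fin N) ℚ_[ℓ])
    (J : Matrix (Fin N) (Fin N) ℚ_[ℓ]) : Prop :=
  Continuous ρ ∧ Jᵀ = -J ∧ J.det ≠ 0 ∧ (∀ σ, ∃ c : ℚ_[ℓ], (ρ σ)ᵀ * J * ρ σ = c • J) ∧
    ∀ v ∉ S, (ℓ : 𝓞 K) ∉ v.asIdeal → ∀ σ : AbsoluteGaloisGroup K, IsFrobenius v σ →
      (ρ σ⁻¹).charpoly = (P v).map (algebraMap ℚ ℚ_[ℓ]) ∧
        (ρ σ⁻¹)ᵀ * J * ρ σ⁻¹ = (q v : ℚ_[ℓ]) • J

/-- the image of the Galois group contains a neighbourhood of `1` in the symplectic group of `J` -/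
def HasOpenImage {K : Type} [Field K] {N : ℕ} (ℓ : ℕ) [Fact ℓ.Prime]
    (ρ : AbsoluteGaloisGroup K →* Matrix (Fin N) (Fin N) ℚ_[ℓ]) (J : Matrix (Fin N) (Fin N) ℚ_[ℓ]) :
    Prop :=
  ∃ ε : ℝ, 0 < ε ∧ ∀ g : Matrix (Fin N) (Fin N) ℚ_[ℓ], gᵀ * J * g = J →
    (∀ i j, ‖(g - 1) i j‖ < ε) → ∃ σ, ρ σ = g

/-- every multilinear form in `k` variables on `ℚ_ℓ ^ N` (`k` arbitrary) which is invariant under the
isometries `ρ σ`, `σ` in an open subgroup of the Galois group, is a linear combination of the products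
`∏ J(v_j, v_{π j})` (one factor for every pair `{j, π j}`), `π` a perfect matching of the variables -/
def TateTensorsFromForm {K : Type} [Field K] {N : ℕ} (ℓ : ℕ) [Fact ℓ.Prime]
    (ρ : AbsoluteGaloisGroup K →* Matrix (Fin N) (Fin N) ℚ_[ℓ]) (J : Matrix (Fin N) (Fin N) ℚ_[ℓ]) :
    Prop :=
  ∀ (k : ℕ) (φ : MultilinearMap ℚ_[ℓ] (fun _ : Fin k => Fin N → ℚ_[ℓ]) ℚ_[ℓ])
    (U : Subgroup (AbsoluteGaloisGroup K)), IsOpen (U : Set (AbsoluteGaloisGroup K)) →
    (∀ σ ∈ U, (ρ σ)ᵀ * J * ρ σ = J → ∀ v, φ (fun j => ρ σ *ᵥ v j) = φ v) →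
    (fun v => φ v) ∈ Submodule.span ℚ_[ℓ] {f : (Fin k → Fin N → ℚ_[ℓ]) → ℚ_[ℓ] |
      ∃ π : Equiv.Perm (Fin k), (∀ j, π (π j) = j) ∧ (∀ j, π j ≠ j) ∧
        ∀ v, f v = ∏ j with j < π j, (v j ⬝ᵥ J *ᵥ v (π j))}

/-- the set `A` of prime numbers has natural density zero -/
def HasDensityZero (A : Set ℕ) : Prop :=
  Tendsto (fun n : ℕ => (Nat.card {ℓ : ℕ // ℓ ≤ n ∧ ℓ ∈ A} : ℝ) / (Nat.primeCounting n : ℝ))
    atTop (𝓝 0)

/-- **A zero-one law in `ℓ` for open image in the symplectic group.** -/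
theorem result (K : Type) [Field K] [NumberField K] (N : ℕ) (hN : 0 < N)
    (S : Set (HeightOneSpectrum (𝓞 K))) (hS : S.Finite) (P : HeightOneSpectrum (𝓞 K) → ℚ[X])
    (q : HeightOneSpectrum (𝓞 K) → ℚ)
    (ρ : ∀ (ℓ : ℕ) [Fact ℓ.Prime], AbsoluteGaloisGroup K →* Matrix (Fin N) (Fin N) ℚ_[ℓ])
    (J : ∀ (ℓ : ℕ) [Fact ℓ.Prime], Matrix (Fin N) (Fin N) ℚ_[ℓ])
    (hρ : ∀ (ℓ : ℕ) [Fact ℓ.Prime], IsSymplecticSystem K N S P q ℓ (ρ ℓ) (J ℓ)) :
    -- (A)
    (∀ (ℓ : ℕ) [Fact ℓ.Prime], ℓ ≠ 2 → HasOpenImage ℓ (ρ ℓ) (J ℓ) →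
      HasDensityZero {ℓ | ∃ _ : Fact ℓ.Prime,
        ¬ (HasOpenImage ℓ (ρ ℓ) (J ℓ) ∧ TateTensorsFromForm ℓ (ρ ℓ) (J ℓ))}) ∧
    -- (B)
    ∀ v ∉ S, ∀ w ∉ S, (P v).Separable → (P w).Separable →
      (∀ n : ℕ, 0 < n → ∀ x y : ℂ, aeval x (P v) = 0 → aeval y (P v) = 0 → x ^ n = y ^ n → x = y) →
      (∀ x y z u : ℂ, aeval x (P w) = 0 → aeval y (P w) = 0 → aeval z (P w) = 0 →
        aeval u (P w) = 0 → x ≠ y → x * u = z * y →
        (z = x ∧ u = y) ∨ (z * y = (q w : ℂ) ∧ u * x = (q w : ℂ))) →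
      (∃ σ : AbsoluteGaloisGroup ℚ,
        (∀ x y : AlgebraicClosure ℚ, aeval x (P v) = 0 → aeval y (P v) = 0 →
          ∃ k : ℕ, (σ ^ k) x = y) ∧
        ∀ x : AlgebraicClosure ℚ, aeval x (P w) = 0 → σ x = x) →
      HasDensityZero {ℓ | ∃ _ : Fact ℓ.Prime,
        ¬ (HasOpenImage ℓ (ρ ℓ) (J ℓ) ∧ TateTensorsFromForm ℓ (ρ ℓ) (J ℓ))} := by
  -- the tasks
  have hTAN : Y142.ZO.S_TAN := Y708.ZO.t
  have hEXP : Y142.ZO.S_EXP := Y497.ZO.exp
  have hFROB : Y142.ZO.S_FROB := Y405.ZO.t
  have hCLU : Y142.ZI.S_CLU := Y64.ZI.t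
  have hCYC : Y142.ZI.S_CYC := Y35.ZI.cyc
  have hUNR : Y142.ZI.S_UNR := Y333.ZI.unr
  have hNICE : Y142.ZI.S_NICE := Y547.ZI.t1
  have hCOMP : Y142.ZI.S_COMP := Y547.ZI.t2
  have hINT : Y142.ZI.S_INT := Y484.ZI.t1
  have hRES : Y142.ZI.S_RES := Y484.ZI.t2
  have hIRR : Y142.ZI.S_IRR := Y971.ZI.t
  have hCHEB : Y142.ZI.S_CHEB := Y726.ZI.t1
  have hPOS : Y142.ZI.S_POS := Y726.ZI.pos
  have hDENS2 : Y142.ZI.S_DENS2 := Y681.ZI.t hCHEB
  have hMULTI : Y142.ZI.S_MULTI := Y537.ZI.t
  have hGEN : Y142.ZI.S_GEN := Y515.ZI.t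
  have hCLQ : Y142.ZI.S_CLQ := Y547.ZI.t hCLU
  have hTYPC : Y142.ZI.S_TYPC := Y210.ZI.t hCLQ hCYC hNICE
  have hTYPS : Y142.ZI.S_TYPS := Y67.ZI.TypS.t hCLQ
  have hTYPT : Y142.ZI.S_TYPT := Y67.ZI.TypT.t hCLQ hCOMP
  have hTYPU : Y142.ZI.S_TYPU := Y405.ZI.t hCLQ hCOMP
  have hTANS : Y142.ZS.S_TANS := Y710.ZS.t1
  have hCAYS : Y142.ZS.S_CAYS := Y710.ZS.t2
  have hOPENS : Y142.ZS.S_OPENS := Y664.ZS.t
  have hBADIRR : Y142.ZS.S_BADIRR := Y153.ZS.t
  have hROOT : Y142.ZS.S_ROOT := Y929.ZS.t_root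
  have hSFORM : Y142.ZS.S_SFORM := Y487.ZS.t
  have hCHARS : Y142.ZS.S_CHARS := Y779.ZS.t
  have hTWIST : Y142.ZS.S_TWIST := Y614.ZS.t
  have hTYPG : Y142.ZS.S_TYPG := Y914.ZS.t
  have hTYPCU : Y142.ZS.S_TYPCU := Y884.ZS.t
  have hTENSS : Y142.ZS.S_TENSS := Y100.ZS.t
  have hSPL : Y142.ZS.S_SPL := Y674.ZS.t
  have hsys : ∀ (ℓ : ℕ) [Fact ℓ.Prime], Y142.ZS.SpSys K N ℓ (ρ ℓ) (J ℓ) S P q := hρ
  obtain ⟨m, rfl⟩ : ∃ m, N = 2 * m + 2 := by
    obtain ⟨k, hk⟩ := Y142.ZS.even_of_sys ρ J hsys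
    exact ⟨k - 1, by omega⟩
  -- from the Lie algebra to the statement
  have hset : HasDensityZero {ℓ | ∃ _ : Fact ℓ.Prime, ¬ Y142.ZS.FullSp ℓ (ρ ℓ) (J ℓ)} →
      HasDensityZero {ℓ | ∃ _ : Fact ℓ.Prime,
        ¬ (HasOpenImage ℓ (ρ ℓ) (J ℓ) ∧ TateTensorsFromForm ℓ (ρ ℓ) (J ℓ))} := by
    intro h
    refine Y142.ZI.DensityZero.mono h ?_
    rintro ℓ ⟨hp, hno⟩
    refine ⟨hp, fun hfull => hno ?_⟩
    have hop : Y142.ZS.OpenSp ℓ (ρ ℓ) (J ℓ) := hOPENS ℓ _ _ (ρ ℓ) (hsys ℓ).1 (J ℓ) (hsys ℓ).2.1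
      (hsys ℓ).2.2.1 (hsys ℓ).2.2.2.1 hfull
    exact ⟨hop, hTENSS ℓ _ _ (ρ ℓ) (hsys ℓ).1 (J ℓ) (hsys ℓ).2.1 (hsys ℓ).2.2.1 hop⟩
  refine ⟨?_, ?_⟩
  · intro ℓ hp h2 hop
    have hfull : Y142.ZS.FullSp ℓ (ρ ℓ) (J ℓ) :=
      hCAYS ℓ _ _ (ρ ℓ) (J ℓ) (hsys ℓ).2.1 (hsys ℓ).2.2.1 hop
    obtain ⟨v, w, hv, hw, hne⟩ := Y142.ZS.start hMULTI hFROB hCHARS hSFORM hTYPCU hTYPG hS ρ J hsys ℓ
      h2 hfull
    exact hset (Y142.ZS.densityS hTAN hEXP hTANS hROOT hBADIRR hPOS hIRR hSPL hMULTI hFROB hCHARS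
      hSFORM hTWIST hTYPC hTYPS hTYPT hTYPU hTYPG hGEN hRES hUNR hINT hDENS2 hS ρ J hsys hv hw hne)
  · intro v hv w hw hsv hsw hpow hgen hσ
    obtain ⟨σ, hσ1, hσ2⟩ := hσ
    exact hset (Y142.ZS.densityS hTAN hEXP hTANS hROOT hBADIRR hPOS hIRR hSPL hMULTI hFROB hCHARS
      hSFORM hTWIST hTYPC hTYPS hTYPT hTYPU hTYPG hGEN hRES hUNR hINT hDENS2 hS ρ J hsys
      (Y142.ZS.nice_of_complex ρ J hsys hv hsv hpow)
      (Y142.ZS.gen_of_complex (Nat.succ_pos _) ρ J hsys hw hsw hgen) ⟨σ, hσ1, hσ2⟩)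

end Pool.Agent.Results.MP_3703a7_ag.SymplecticZeroOne
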