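import Pool.Agent.Y129.Fin

/-!
# The Tate classes on the powers of a variety: the index

Let `X` be a smooth proper variety over `k`, `W` a Weil cohomology theory (for example `ℓ`-adic
cohomology, with coefficients in `ℚ_ℓ` or in any extension of it). Suppose that a group `Γ` (a
Galois group) acts on the cohomology of the powers `X ^ n` with the formal properties of the Galois
action (`IsPowerAct`): it is compatible with cup products and with the projections to the factors,
it multiplies the orientation by the `dim`-th power of a character `χ`, and each class of a cycle of
codimension `j` is multiplied by `χ ^ j` by a subgroup belonging to a fixed directed set `D` of
subgroups. The Tate classes of codimension `j` are the classes `c` of degree `2 j` with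
`g c = χ(g) ^ j c` for all `g` in a subgroup belonging to `D`. There are two main cases:

* `k` is algebraically closed, `X` is defined over a finitely generated field `k₀` with the Galois
  group `Γ`, and `D` is the set of the subgroups of finite index: these are the classes which are
  fixed, after a Tate twist, over some finite extension of `k₀`;
* `k` itself is finitely generated, `W` is the cohomology of varieties over `k` with scalars extended
  to an algebraic closure, `Γ` is the Galois group of `k`, and `D` contains only `Γ`: these are the
  classes in `H ^ {2 j}(X)(j) ^ Γ` and the cycles are those over `k`, as in question Q1 (the
  prime cycles, the elements of the basis, are normalised so that closed points have degree one).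

Let `t(n)` be the dimension of the space of all Tate classes on `X ^ n` and `r(n)` the rank of the
group of all algebraic cycles on `X ^ n` modulo numerical equivalence.

Theorem. The quotient `t(n) / r(n)` converges to a limit `N ∈ {1, 2, 3, …, ∞}`; the quotients
`t(2 n) / r(2 n)` are at most `N`; and `N = 1` if and only if the Tate conjecture and the
conjecture D (numerical equivalence is homological equivalence) hold for all powers of `X`, in all
codimensions. If `N` is finite, then the conjecture D holds for all powers of `X`, and the Tate
classes on all powers of `X` are generated under algebraic correspondences by the classes of cycles
and at most `N - 1` further Tate classes.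

No standard conjecture, no semisimplicity and no hypothesis on `X` is used. So if the Tate
conjecture (or D) fails for one class on one power of `X`, then it fails asymptotically for at
least one half of the Tate classes: `r(n) ≤ (1 / 2 + o(1)) t(n)`; conversely
`t(n) ≤ (2 - ε) r(n)` for infinitely many `n` implies the Tate conjecture and D for all powers
of `X`.

Idea of the proof. Suppose first that the ranks `r(n)` grow like `b ^ n`, `b` the total Betti
number. Then numerically trivial correspondences between powers are nilpotent, so the algebraic
correspondences modulo the radical of the trace form are a semisimple category (Jannsen's
argument) in which the spaces of morphisms have the dimensions `r(n)`. Schur's lemma and the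
Cauchy-Schwarz inequality for multiplicities, with a lower bound for the ranks from the
representations of the symmetric groups (polynomially many orbits), show that the multiplicity of
an indecomposable summand of the motive of a power of `X` in the motive of `X ^ n` is
asymptotically the dimension of its realisation times `r(n)`. Decomposing the spaces of Tate
classes on `X ^ m` one obtains integers `N_m`, and the limit is the supremum of the `N_m`. If the
ranks grow more slowly, the number of algebraic classes which are combinations of products of
diagonals is already of a larger order than `r(n)`, and the limit is infinite. The same argument
shows that the indices of two different systems of classes, one contained in the other, which are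
stable under algebraic correspondences and contain the algebraic classes differ by at least one;
so there is no chain of more than `N` such systems between the algebraic classes and the Tate
classes. (The conjecture D in the case of a finite index is a zero-infinity law for numerically
trivial classes: if there is one on some power of `X`, almost all algebraic classes on high powers
are numerically trivial.)
-/

open Filter Topology Pool.Agent.H914 Pool.Agent.H914.VarClass Pool.Agent.Y129

open scoped ENNReal

universe u v w

namespace Pool.Agent.Results.MP_3703a7_ag.TateIndex

/-- The quotients of the dimension of the space of all Tate classes on the powers of `X` and of the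
rank of the group of all algebraic cycles modulo numerical equivalence converge to an element
`N ≥ 1` of `ℕ ∪ {∞}`, which bounds them for the even powers; `N = 1` if and only if the Tate
conjecture and the conjecture D hold for all powers of `X`; if `N` is finite, the conjecture D holds
for all powers of `X` and the Tate classes on all powers are generated by the classes of cycles and
at most `N - 1` Tate classes. (`pw X n` is the product of `n + 1` copies
of `X`.) -/
theorem result {k : Type u} [Field k] {𝒱 : VarClass k} {ops : CycleOps 𝒱}
    (W : WeilCohomology.{u, v} ops) (X : 𝒱.Obj) [Nontrivial (W.H X)] {Γ : Type w} [Group Γ]
    (D : Set (Subgroup Γ)) (χ : Γ →* W.Kˣ) (ρ : Acts W X Γ) (hρ : IsPowerAct W X D χ ρ) :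
    ∃ N : ℕ∞, 1 ≤ N ∧
      Tendsto (fun n => (allTate W X D χ ρ n : ℝ≥0∞) / cycRank ops (pw X n)) atTop
        (𝓝 (N : ℝ≥0∞)) ∧
      (∀ n, (allTate W X D χ ρ (2 * n + 1) : ℝ≥0∞) / cycRank ops (pw X (2 * n + 1)) ≤
        (N : ℝ≥0∞)) ∧
      (N = 1 ↔ TateAndD W X D χ ρ) ∧
      (N ≠ ⊤ → (∀ n, HomEqNum W (pw X n)) ∧ TateGenerated W X D χ ρ N) :=
  tate_index4 hρ

end Pool.Agent.Results.MP_3703a7_ag.TateIndex
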